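import Pool.Agent.H667R5.NX.NT.Stubs
import Pool.Agent.H667R5.NX.ND.TSIRD

/-!
# ROW0: rows excised by `g` in the traceless case
-/

set_option autoImplicit false

namespace Pool.Agent.H667R5.NT

open Filter Topology Pool.Agent.H327R4.Pure Pool.Agent.H270R2.NU
open Pool.Agent.H327R4.SI (RI StRIB)
open Pool.Agent.H327R4.ND.SIRDx (kf k_conj k_norm k_sa RI_sub)

universe u

theorem t_ROW0 (hR : StROWSD.{u}) (hRIB : StRIB.{u}) : StROW0.{u} := by
  intro A _ _ _ J hJ hS hnT g e L ε hgJ hg hg1 heJ he0 he1 hε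
  have _hnt : Nontrivial A := ⟨⟨g, 0, by
    intro h0
    rw [h0, norm_zero] at hg1
    norm_num at hg1⟩⟩
  obtain ⟨r1, r2, r3, r4, r5, r6, r7, r8, r9⟩ := hRIB A
  obtain ⟨c1, c2, c3, c4, c5, c6, c7, c8, c9⟩ := ct' A g hg
  set c : A := cut (1 / 2) g with hc
  have hc0 : 0 ≤ c := c1 _
  have hcne : c ≠ 0 := by
    intro h0
    have h1 := c6 (1 / 2) (by norm_num)
    rw [← hc, h0, sub_zero, hg1] at h1
    norm_num at h1
  have hcRI : c ∈ RI g := by
    refine r6 g _ hg (by fun_prop) ?_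
    show max ((0 : ℝ) - 1 / 2) 0 = 0
    rw [max_eq_right]; norm_num
  have hcJ : c ∈ J := RI_sub hJ hgJ hcRI
  obtain ⟨w, hw1, hw2⟩ := hR A J hJ hS L e c ε heJ he0 hcJ hc0 hcne hε
    (fun T hT => absurd ⟨T, hT⟩ hnT)
  set k : A := cfc kf g with hk
  have hkn : ‖k‖ ≤ 2 := k_norm g
  have hks : star k = k := k_sa g
  -- the norm of `k`
  refine ⟨fun l => k * w l, fun l => ⟨hJ.mul_left _ _ (RI_sub hJ hcJ (hw2 l)), ?_⟩, ?_⟩
  · have hwn : ‖w l‖ ≤ 1 := by
      have h1 := hw1 l l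
      rw [if_pos rfl] at h1
      have hcut : ‖cut ε e‖ ≤ 1 := by
        obtain ⟨d1, d2, -⟩ := ct' A e he0
        exact (CStarAlgebra.norm_le_norm_of_nonneg_of_le (d1 ε) (d2 ε hε.le)).trans
          ((CStarAlgebra.norm_le_one_iff_of_nonneg e he0).2 he1)
      have h2 : ‖star (w l) * w l‖ ≤ 1 := by rw [h1]; exact hcut
      rw [CStarRing.norm_star_mul_self] at h2
      nlinarith [norm_nonneg (w l)]
    have := norm_mul_le_of_le hkn hwn
    linarith
  · intro l l'
    have h1 : star (k * w l) * g * (k * w l') = star (w l) * ((k * g * k) * w l') := by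
      rw [star_mul, hks]
      noncomm_ring
    have h2 : phi (1 / 2) g * w l' = w l' := r7 g (w l') (1 / 2) hg (by norm_num) (hw2 l')
    show star (k * w l) * g * (k * w l') = _
    rw [h1, hk, k_conj g hg, h2]
    exact hw1 l l'

end Pool.Agent.H667R5.NT
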