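import Pool.Agent.H667R5.NX.NT.Stubs
import Pool.Agent.H667R5.NX.NU.TSID

/-!
# SITD: almost central almost isometries in the traceless case (adapted from TSID, helper997)
-/

set_option autoImplicit false

namespace Pool.Agent.H667R5.NT

open Filter Topology Pool.Agent.H327R4.Pure Pool.Agent.H270R2.NU
open Pool.Agent.H667R5.TW (tr NuclearC)
open Pool.Agent.H327R4.SI (RI Ex Dc IsSt CPto CPF CPAP StRIB StX1 StX2 StX3 StQC StFCOM SI_cut SI_s
  SI_step1 SI_step2 SI_f)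
open Pool.Agent.H270R2.NU.SID (step3 mul3 mul2 comm sum_mem sq_le)

universe u

theorem t_SITD (hAUD : StAUD.{u}) (hGLD : StGLD.{u}) (hROW : StROW0.{u}) : StSITD.{u} := by
  intro E _ _ _ D hD hsc hcpf hnv m x R ε hx hε
  classical
  -- the finite set
  obtain ⟨zl, hzl⟩ : ∃ zl : List E, zl = 1 :: (List.ofFn x ++ List.ofFn (fun j => star (x j)) ++
    List.ofFn (fun j => star (x j) * x j)) := ⟨_, rfl⟩
  have hz1 : (1 : E) ∈ zl := by rw [hzl]; exact List.mem_cons_self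
  have hza : ∀ j, x j ∈ zl := by
    intro j
    rw [hzl]
    apply List.mem_cons_of_mem
    rw [List.mem_append, List.mem_append]
    left; left
    rw [List.mem_ofFn]
    exact ⟨j, rfl⟩
  have hzs : ∀ j, star (x j) ∈ zl := by
    intro j
    rw [hzl]
    apply List.mem_cons_of_mem
    rw [List.mem_append, List.mem_append]
    left; right
    rw [List.mem_ofFn]
    exact ⟨j, rfl⟩
  have hzq : ∀ j, star (x j) * x j ∈ zl := by
    intro j
    rw [hzl]
    apply List.mem_cons_of_mem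
    rw [List.mem_append]
    right
    rw [List.mem_ofFn]
    exact ⟨j, rfl⟩
  -- constants
  obtain ⟨Am, hAm⟩ : ∃ Am : ℝ, Am = ∑ j, ‖x j‖ := ⟨_, rfl⟩
  have hAm0 : 0 ≤ Am := by rw [hAm]; exact Finset.sum_nonneg fun j _ => norm_nonneg _
  have haAm : ∀ j, ‖x j‖ ≤ Am := by
    intro j
    rw [hAm]
    exact Finset.single_le_sum (f := fun j => ‖x j‖) (fun j _ => norm_nonneg _) (Finset.mem_univ j)
  -- the approximate unit b
  obtain ⟨g0, hg0D, hg00, hg01, hg0x⟩ := hAUD E D hD (Finset.univ.image x) (ε / 4)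
    (fun y hy => by
      obtain ⟨j, -, rfl⟩ := Finset.mem_image.1 hy
      exact hx j) (by positivity)
  obtain ⟨b, hb⟩ : ∃ b : E, b = g0 * g0 := ⟨_, rfl⟩
  have hbD : b ∈ D := by rw [hb]; exact hD.mul_left _ _ hg0D
  have hb0 : 0 ≤ b := by rw [hb]; exact (sq_le hg00 hg01).1
  have hb1 : b ≤ 1 := by rw [hb]; exact (sq_le hg00 hg01).2
  have hbsa : star b = b := (IsSelfAdjoint.of_nonneg hb0).star_eq
  have hbn : ‖b‖ ≤ 1 := (CStarAlgebra.norm_le_one_iff_of_nonneg b hb0).2 hb1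
  have hbx : ∀ j, ‖b * x j - x j‖ ≤ ε / 4 ∧ ‖x j * b - x j‖ ≤ ε / 4 := by
    intro j
    have h1 := hg0x (x j) (Finset.mem_image_of_mem x (Finset.mem_univ j))
    rw [← hb] at h1
    have e1 : b * x j - x j = -((1 - b) * x j) := by noncomm_ring
    have e2 : x j * b - x j = -(x j * (1 - b)) := by noncomm_ring
    rw [e1, e2, norm_neg, norm_neg]
    exact ⟨h1.2, h1.1⟩
  -- eta
  obtain ⟨η, hη⟩ : ∃ η : ℝ, η = min (ε / 2) (ε ^ 2 / 4 / (1 + Am) ^ 2) := ⟨_, rfl⟩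
  have hη0 : 0 < η := by rw [hη]; exact lt_min (by positivity) (by positivity)
  have hηε : η ≤ ε / 2 := by rw [hη]; exact min_le_left _ _
  have hηε2 : η * (1 + Am) ^ 2 ≤ ε ^ 2 / 4 := by
    have : η ≤ ε ^ 2 / 4 / (1 + Am) ^ 2 := by rw [hη]; exact min_le_right _ _
    rwa [le_div_iff₀ (by positivity)] at this
  obtain ⟨N, L, ρ, c₀, hρ, hρc₀⟩ := hcpf zl.length zl.get (η / 4) (by positivity)
  -- the elements of D
  obtain ⟨c, hc⟩ : ∃ c : Fin L → Fin N → E, c = fun l p => c₀ l p * b := ⟨_, rfl⟩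
  have hcD : ∀ l p, c l p ∈ D := by
    intro l p
    rw [hc]
    exact hD.mul_left _ _ hbD
  have hρc : ∀ j, ‖∑ l, ∑ p, ∑ q, ρ (zl.get j) p q • (star (c l p) * c l q) -
      b * zl.get j * b‖ ≤ η / 4 := by
    intro j
    have e1 : ∑ l, ∑ p, ∑ q, ρ (zl.get j) p q • (star (c l p) * c l q) - b * zl.get j * b =
        b * (∑ l, ∑ p, ∑ q, ρ (zl.get j) p q • (star (c₀ l p) * c₀ l q) - zl.get j) * b := by
      rw [mul_sub, sub_mul]
      congr 1
      simp only [Finset.mul_sum, Finset.sum_mul]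
      refine Finset.sum_congr rfl fun l _ => Finset.sum_congr rfl fun p _ =>
        Finset.sum_congr rfl fun q _ => ?_
      rw [hc]
      simp only [star_mul, hbsa, mul_smul_comm, smul_mul_assoc, mul_assoc]
    rw [e1]
    refine (mul3 b _ b 1 (η / 4) 1 hbn (hρc₀ j) hbn).trans (le_of_eq (by ring))
  obtain ⟨S, hS⟩ : ∃ S : ℝ, S = ∑ x : Fin L × Fin N, ‖c x.1 x.2‖ := ⟨_, rfl⟩
  have hS0 : 0 ≤ S := by rw [hS]; exact Finset.sum_nonneg fun j _ => norm_nonneg _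
  obtain ⟨ε₂, hε₂⟩ : ∃ ε₂ : ℝ, ε₂ = η / (4 * (4 * S ^ 2 + 1)) := ⟨_, rfl⟩
  have hε₂0 : 0 < ε₂ := by rw [hε₂]; positivity
  obtain ⟨d, g, hdD, hgD, hg0', hg1, hd⟩ := hGLD E D hD N ρ zl.length zl.get ε₂ hρ hε₂0
  -- more constants
  obtain ⟨P, hP⟩ : ∃ P : ℝ, P = ∑ i : Fin zl.length,
    ∑ l, ∑ p, ∑ q, ‖ρ (zl.get i) p q‖ * ‖c l p‖ * ‖c l q‖ := ⟨_, rfl⟩
  obtain ⟨P', hP'⟩ : ∃ P' : ℝ, P' = ∑ i : Fin zl.length,
    ∑ l, ∑ p, ∑ q : Fin N, ‖ρ (zl.get i) p q‖ * ‖c l p‖ := ⟨_, rfl⟩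
  have hP0 : 0 ≤ P := by rw [hP]; positivity
  have hP'0 : 0 ≤ P' := by rw [hP']; positivity
  have hPi : ∀ i : Fin zl.length, ∑ l, ∑ p, ∑ q, ‖ρ (zl.get i) p q‖ * ‖c l p‖ * ‖c l q‖ ≤ P := by
    intro i
    rw [hP]
    exact Finset.single_le_sum (f := fun i : Fin zl.length =>
      ∑ l, ∑ p, ∑ q, ‖ρ (zl.get i) p q‖ * ‖c l p‖ * ‖c l q‖)
      (fun j _ => by positivity) (Finset.mem_univ i)
  have hP'i : ∀ i : Fin zl.length, ∑ l, ∑ p, ∑ q : Fin N, ‖ρ (zl.get i) p q‖ * ‖c l p‖ ≤ P' := by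
    intro i
    rw [hP']
    exact Finset.single_le_sum (f := fun i : Fin zl.length =>
      ∑ l, ∑ p, ∑ q : Fin N, ‖ρ (zl.get i) p q‖ * ‖c l p‖)
      (fun j _ => by positivity) (Finset.mem_univ i)
  obtain ⟨Q, hQ⟩ : ∃ Q : ℝ, Q = ∑ x : Fin L × Fin N, ‖d x.2‖ * ‖c x.1 x.2‖ := ⟨_, rfl⟩
  have hQ0 : 0 ≤ Q := by rw [hQ]; positivity
  obtain ⟨ε₃, hε₃⟩ : ∃ ε₃ : ℝ, ε₃ = min (η / (4 * (P + 1))) (ε / (2 * (Q + 1))) := ⟨_, rfl⟩
  have hε₃0 : 0 < ε₃ := by rw [hε₃]; exact lt_min (by positivity) (by positivity)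
  -- the element G
  obtain ⟨ε₁, hε₁⟩ : ∃ ε₁ : ℝ, ε₁ = η / (16 * (P' + 1)) := ⟨_, rfl⟩
  have hε₁0 : 0 < ε₁ := by rw [hε₁]; positivity
  obtain ⟨g1, hg1D, hg10, hg11, hg1x⟩ := hAUD E D hD
    (Finset.univ.image (fun x : Fin L × Fin N => c x.1 x.2)) ε₁
    (fun y hy => by
      obtain ⟨j, -, rfl⟩ := Finset.mem_image.1 hy
      exact hcD _ _) hε₁0
  obtain ⟨G, hG⟩ : ∃ G : E, G = g1 * g1 := ⟨_, rfl⟩
  have hGD : G ∈ D := by rw [hG]; exact hD.mul_left _ _ hg1D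
  have hG0 : 0 ≤ G := by rw [hG]; exact (sq_le hg10 hg11).1
  have hG1 : G ≤ 1 := by rw [hG]; exact (sq_le hg10 hg11).2
  have hGn : ‖G‖ ≤ 1 := (CStarAlgebra.norm_le_one_iff_of_nonneg G hG0).2 hG1
  have hGc : ∀ l p, ‖G * c l p - c l p‖ ≤ ε₁ := by
    intro l p
    have h1 := (hg1x (c l p) (Finset.mem_image.2 ⟨(l, p), Finset.mem_univ _, rfl⟩)).2
    rw [← hG] at h1
    have e1 : G * c l p - c l p = -((1 - G) * c l p) := by noncomm_ring
    rw [e1, norm_neg]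
    exact h1
  obtain ⟨r, hr2, hrr⟩ := hROW E D hD hsc hnv g G (R * L) ε₃ hgD hg0' hg1 hGD hG0 hG1 hε₃0
  let rr : Fin R → Fin L → E := fun i l => r (finProdFinEquiv (i, l))
  -- the element
  have hk : ‖cut ε₃ G - G‖ ≤ ε₃ := SI_cut G hG0 ε₃ hε₃0.le
  have main : ∀ z ∈ zl, ∀ i i', ‖star (SI_s d (rr i) c) * z * SI_s d (rr i') c -
      if i = i' then b * z * b * 1 else 0‖ ≤ η := by
    intro z hz i i'
    obtain ⟨j, rfl⟩ := List.mem_iff_get.1 hz
    have s1 := SI_step1 d (rr i) (rr i') c (zl.get j) g (fun p q => ρ (zl.get j) p q) ε₂ hε₂0.le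
      (fun l => (hr2 _).2) (fun l => (hr2 _).2) (fun p q => hd j p q)
    have s2 := SI_step2 (rr i) (rr i') c g (cut ε₃ G) (fun p q => ρ (zl.get j) p q) (i = i')
      (fun l l' => by
        show star (r _) * g * r _ = _
        rw [hrr]
        simp only [EmbeddingLike.apply_eq_iff_eq, Prod.mk.injEq])
    rw [s2, ← hS] at s1
    have b1 : 4 * ε₂ * S ^ 2 ≤ η / 4 := by
      rw [hε₂, div_eq_mul_inv, div_eq_mul_inv]
      have h5 : (4 * (4 * S ^ 2 + 1))⁻¹ * (4 * S ^ 2) ≤ 4⁻¹ := by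
        rw [inv_mul_le_iff₀ (by positivity)]
        nlinarith [sq_nonneg S]
      nlinarith
    by_cases hii : i = i'
    swap
    · rw [if_neg hii] at s1 ⊢
      exact (s1.trans b1).trans (by linarith)
    rw [if_pos hii] at s1 ⊢
    have s3 := step3 c (cut ε₃ G) G 1 (fun p q => ρ (zl.get j) p q) ε₃ (2 * ε₁) hk
      (fun l p => by
        rw [mul_one]
        exact (hGc l p).trans (by linarith))
      (by positivity)
    have b2 : ε₃ * (∑ l, ∑ p, ∑ q, ‖ρ (zl.get j) p q‖ * ‖c l p‖ * ‖c l q‖) ≤ η / 4 := by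
      have h5 : ε₃ ≤ η / (4 * (P + 1)) := by rw [hε₃]; exact min_le_left _ _
      calc ε₃ * (∑ l, ∑ p, ∑ q, ‖ρ (zl.get j) p q‖ * ‖c l p‖ * ‖c l q‖)
          ≤ η / (4 * (P + 1)) * (P + 1) := by
            apply mul_le_mul h5 ((hPi j).trans (by linarith)) (by positivity) (by positivity)
        _ = η / 4 := by field_simp
    have b3 : (2 * ε₁) * (∑ l, ∑ p, ∑ q : Fin N, ‖ρ (zl.get j) p q‖ * ‖c l p‖) ≤ η / 4 := by
      have h8 : 0 ≤ η / (8 * (P' + 1)) := by positivity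
      have h5 : 2 * ε₁ ≤ η / (4 * (P' + 1)) := by
        have h6 : 2 * ε₁ = η / (8 * (P' + 1)) := by rw [hε₁]; field_simp; ring
        have h7 : η / (4 * (P' + 1)) = η / (8 * (P' + 1)) + η / (8 * (P' + 1)) := by
          field_simp; ring
        linarith
      calc (2 * ε₁) * (∑ l, ∑ p, ∑ q : Fin N, ‖ρ (zl.get j) p q‖ * ‖c l p‖)
          ≤ η / (4 * (P' + 1)) * (P' + 1) := by
            apply mul_le_mul h5 ((hP'i j).trans (by linarith)) (by positivity) (by positivity)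
        _ = η / 4 := by field_simp
    have s5 : ‖(∑ l, ∑ p, ∑ q, ρ (zl.get j) p q • (star (c l p) * c l q)) * 1 -
        b * zl.get j * b * 1‖ ≤ η / 4 := by
      rw [mul_one, mul_one]
      exact hρc j
    calc ‖star (SI_s d (rr i) c) * zl.get j * SI_s d (rr i') c - b * zl.get j * b * 1‖
        = ‖(star (SI_s d (rr i) c) * zl.get j * SI_s d (rr i') c -
            ∑ l, ∑ p, ∑ q, ρ (zl.get j) p q • (star (c l p) * cut ε₃ G * c l q)) +
          (∑ l, ∑ p, ∑ q, ρ (zl.get j) p q • (star (c l p) * cut ε₃ G * c l q) -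
            (∑ l, ∑ p, ∑ q, ρ (zl.get j) p q • (star (c l p) * c l q)) * 1) +
          ((∑ l, ∑ p, ∑ q, ρ (zl.get j) p q • (star (c l p) * c l q)) * 1 -
            b * zl.get j * b * 1)‖ := by
          congr 1
          abel
      _ ≤ η / 4 + (η / 4 + η / 4) + η / 4 := by
          refine (norm_add_le _ _).trans (add_le_add ?_ s5)
          refine (norm_add_le _ _).trans (add_le_add (s1.trans b1) (s3.trans ?_))
          exact add_le_add b2 b3
      _ = η := by ring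
  -- scaling
  have hη1 : 0 < 1 + η := by linarith
  obtain ⟨θ, hθ⟩ : ∃ θ : ℝ, θ = (Real.sqrt (1 + η))⁻¹ := ⟨_, rfl⟩
  have hθ0 : 0 ≤ θ := by rw [hθ]; exact inv_nonneg.2 (Real.sqrt_nonneg _)
  have hθ1 : θ ≤ 1 := by
    rw [hθ]
    refine inv_le_one_of_one_le₀ ?_
    rw [Real.one_le_sqrt]
    linarith
  have hθ2 : θ * θ = (1 + η)⁻¹ := by
    rw [hθ, ← mul_inv, Real.mul_self_sqrt hη1.le]
  have hθ3 : 1 - θ * θ ≤ η := by
    rw [hθ2]
    have : (1 + η)⁻¹ * (1 + η) = 1 := inv_mul_cancel₀ hη1.ne'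
    have h6 : 0 < (1 + η)⁻¹ := inv_pos.2 hη1
    nlinarith
  have hθ4 : θ * θ ≤ 1 := by nlinarith
  have hbb : ‖b * b‖ ≤ 1 := (mul2 b b 1 1 hbn hbn).trans (by norm_num)
  have hsn : ∀ i, ‖SI_s d (rr i) c‖ ≤ Real.sqrt (1 + η) := by
    intro i
    have h1 := main 1 hz1 i i
    rw [if_pos rfl, mul_one, mul_one, mul_one] at h1
    have h2 : ‖star (SI_s d (rr i) c) * SI_s d (rr i) c‖ ≤ 1 + η := by
      have e1 : star (SI_s d (rr i) c) * SI_s d (rr i) c =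
        b * b + (star (SI_s d (rr i) c) * SI_s d (rr i) c - b * b) := by abel
      rw [e1]
      exact (norm_add_le _ _).trans (add_le_add hbb h1)
    rw [CStarRing.norm_star_mul_self] at h2
    exact Real.le_sqrt_of_sq_le (by rw [sq]; exact h2)
  have hcom : ∀ i j, ‖SI_s d (rr i) c * x j - x j * SI_s d (rr i) c‖ ≤ ε := by
    intro i j
    have g1 := main 1 hz1 i i
    have g2 := main (x j) (hza j) i i
    have g3 := main (star (x j)) (hzs j) i i
    have g4 := main (star (x j) * x j) (hzq j) i i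
    rw [if_pos rfl] at g1 g2 g3 g4
    have h1 := comm (SI_s d (rr i) c) (x j) 1 b η 0 (ε / 4) g1 g2 g3 g4 hbsa hbn
      (by
        rcases subsingleton_or_nontrivial E with hE | hE
        · rw [Subsingleton.elim (1 : E) 0, norm_zero]
          norm_num
        · rw [CStarRing.norm_one])
      (by rw [one_mul, mul_one, sub_self, norm_zero])
      (hbx j).1 (hbx j).2
    have h2 : η * (1 + ‖x j‖) ^ 2 ≤ ε ^ 2 / 4 := by
      refine le_trans ?_ hηε2
      have := haAm j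
      have h0 := norm_nonneg (x j)
      gcongr
    have h4 : 4 * (ε / 4) ^ 2 = ε ^ 2 / 4 := by ring
    have h5 : ‖SI_s d (rr i) c * x j - x j * SI_s d (rr i) c‖ ^ 2 ≤ ε ^ 2 := by
      refine h1.trans ?_
      rw [h4, mul_zero, mul_zero]
      nlinarith [sq_nonneg ε]
    exact (sq_le_sq₀ (norm_nonneg _) hε.le).1 h5
  refine ⟨b, fun i => (θ : ℂ) • SI_s d (rr i) c, hbD, hb0, hb1, fun i => ⟨hD.smul _ _ ?_, ?_⟩,
    fun j => ⟨(hbx j).1.trans (by linarith), (hbx j).2.trans (by linarith)⟩, ?_, ?_⟩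
  · refine sum_mem hD _ _ fun y _ => ?_
    exact hD.mul_left _ _ (hcD _ _)
  · rw [norm_smul, Complex.norm_real, Real.norm_of_nonneg hθ0]
    calc θ * ‖SI_s d (rr i) c‖ ≤ θ * Real.sqrt (1 + η) := mul_le_mul_of_nonneg_left (hsn i) hθ0
      _ = 1 := by
        rw [hθ]
        exact inv_mul_cancel₀ (Real.sqrt_pos.2 hη1).ne'
  · intro i i'
    have h1 := main 1 hz1 i i'
    rw [mul_one, mul_one, mul_one] at h1
    have e0 : star ((θ : ℂ) • SI_s d (rr i) c) * ((θ : ℂ) • SI_s d (rr i') c) =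
        ((θ * θ : ℝ) : ℂ) • (star (SI_s d (rr i) c) * SI_s d (rr i') c) := by
      rw [star_smul, smul_mul_smul_comm, Complex.star_def, Complex.conj_ofReal, Complex.ofReal_mul]
    show ‖star ((θ : ℂ) • SI_s d (rr i) c) * ((θ : ℂ) • SI_s d (rr i') c) - _‖ ≤ ε
    have e1 : star ((θ : ℂ) • SI_s d (rr i) c) * ((θ : ℂ) • SI_s d (rr i') c) -
        (if i = i' then b * b else 0) = ((θ * θ : ℝ) : ℂ) • (star (SI_s d (rr i) c) *
          SI_s d (rr i') c - if i = i' then b * b else 0) -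
        ((1 - θ * θ : ℝ) : ℂ) • (if i = i' then b * b else 0) := by
      rw [e0, smul_sub, Complex.ofReal_sub, Complex.ofReal_one, sub_smul, one_smul]
      abel
    rw [e1]
    have n1 : ‖((θ * θ : ℝ) : ℂ)‖ ≤ 1 := by
      rw [Complex.norm_real, Real.norm_of_nonneg (mul_nonneg hθ0 hθ0)]
      exact hθ4
    have n2 : ‖((1 - θ * θ : ℝ) : ℂ)‖ ≤ η := by
      rw [Complex.norm_real, Real.norm_of_nonneg (by linarith)]
      exact hθ3
    have n3 : ‖(if i = i' then b * b else 0 : E)‖ ≤ 1 := by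
      split_ifs
      · exact hbb
      · rw [norm_zero]; norm_num
    refine (norm_sub_le _ _).trans ?_
    rw [norm_smul, norm_smul]
    have m1 : ‖((θ * θ : ℝ) : ℂ)‖ * ‖star (SI_s d (rr i) c) * SI_s d (rr i') c -
        if i = i' then b * b else 0‖ ≤ 1 * η :=
      mul_le_mul n1 h1 (norm_nonneg _) (by norm_num)
    have m2 : ‖((1 - θ * θ : ℝ) : ℂ)‖ * ‖(if i = i' then b * b else 0 : E)‖ ≤ η * 1 :=
      mul_le_mul n2 n3 (norm_nonneg _) hη0.le
    linarith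
  · intro i j
    show ‖((θ : ℂ) • SI_s d (rr i) c) * x j - x j * ((θ : ℂ) • SI_s d (rr i) c)‖ ≤ ε
    rw [smul_mul_assoc, mul_smul_comm, ← smul_sub, norm_smul, Complex.norm_real,
      Real.norm_of_nonneg hθ0]
    calc θ * ‖SI_s d (rr i) c * x j - x j * SI_s d (rr i) c‖ ≤ 1 * ε :=
          mul_le_mul hθ1 (hcom i j) (norm_nonneg _) (by norm_num)
      _ = ε := one_mul ε

end Pool.Agent.H667R5.NT
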