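import Pool.Agent.H667R5.NX.NT.Main
import Pool.Agent.H667R5.NX.NT.TROW0
import Pool.Agent.H667R5.NX.NT.TSITD
import Pool.Agent.H667R5.NX.PZ.TAUN
import Pool.Agent.H667R5.NX.PZ.TEXT
import Pool.Agent.H667R5.NX.PZ.TFULLN
import Pool.Agent.H667R5.NX.PZ.THB
import Pool.Agent.H667R5.NX.PZ.THCZ
import Pool.Agent.H667R5.NX.PZ.THER
import Pool.Agent.H667R5.NX.PZ.THLOW
import Pool.Agent.H667R5.NX.PZ.THNE
import Pool.Agent.H667R5.NX.PZ.THNUC
import Pool.Agent.H667R5.NX.PZ.THSCB
import Pool.Agent.H667R5.NX.PZ.THSIM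
import Pool.Agent.H667R5.NX.PZ.THTR
import Pool.Agent.H667R5.NX.PZ.TMAP
import Pool.Agent.H667R5.NX.PZ.TNILN
import Pool.Agent.H667R5.NX.PZ.TPED
import Pool.Agent.H667R5.NX.PZ.TUC0
import Pool.Agent.H667R5.NX.PZ.TUCORE
import Pool.Agent.H667R5.NX.PZ.TUEXT
import Pool.Agent.H667R5.NX.PZ.TUN
import Pool.Agent.H667R5.NX.PZ.TUNUC
import Pool.Agent.H667R5.NX.PZ.TUSCD
import Pool.Agent.H667R5.NX.PZ.TUZS
import Pool.Agent.H667R5.NX.PZ.TZAPP

/-!
# Toms-Winter, the general case: final assembly

Parts I and II for an ideal `D` of a unital C*-algebra (design helper270): helper862, helper459,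
helper243, helper75, helper195, helper777, helper535, helper700, helper596, helper409, helper708,
helper997, helper594, helper853, helper995, helper697, helper743, helper983, helper747, helper327,
helper667. Reduction of general algebras (design helper30): helper907, helper248, helper130,
helper786, helper732, helper251, helper184, helper260, helper21, helper394, helper804, helper403,
helper996, helper507, helper963, helper680, helper13, helper581, helper61, helper506, helper116,
helper758, helper150, helper624. Traceless case: helper667 (also helper7, helper116, helper735).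
-/

set_option autoImplicit false

namespace Pool.Agent.H667R5.NT

open Pool.Agent.H327R4.Pure Pool.Agent.H270R2.NU Pool.Agent.H667R5.TW
open Pool.Agent.H30R2.PZ

universe u

/-- `Z`-stability of `D` in all cases -/
theorem nu_all : Pool.Agent.H30R2.PZ.StNU.{u} := by
  intro E _ _ _ D hC hS hn
  by_cases hT : ∃ T : TS E, NV D T
  · exact nu_main E D hC hS hn hT
  · exact t_FIN0D E D hC.toCore0
      (t_SITD t_AUD gld' (t_ROW0 rowsd' rib') E D hC.toCore0 hS (cpf' E hn) hT)

theorem hb' : StHB.{u} := t_HB t_AUN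
theorem htr' : StHTR.{u} := t_HTR hb' t_EXT
theorem hcz' : StHCZ.{u} := t_HCZ t_MAP hb' t_AUN
theorem uext' : StUEXT.{u} := t_UEXT t_AUN

/-- TOMS-WINTER: every simple non-elementary nuclear C*-algebra with strict comparison (no
separability, no unit) is `Z`-stable in the local form `ZSN`. -/
theorem tw (A : Type u) [NonUnitalCStarAlgebra A] [PartialOrder A] [StarOrderedRing A]
    (hS : SimpleN A) (hE : NonElem A) (hN : NuclearN A) (hC : SCN A) : ZSN A :=
  tw_of nu_all (t_PED t_FULLN) (t_HSIM hb') (t_HNE hb') (t_HNUC hb' t_MAP) (t_HLOW hb')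
    (t_HSCB hb' htr' hcz' t_MAP) t_UN (t_UC0 t_NILN) (t_UCORE t_FULLN uext')
    (t_USCD t_MAP uext') (t_UNUC t_AUN) t_UZS (t_ZAPP t_HER hb' t_AUN) A hS hE hN hC

end Pool.Agent.H667R5.NT
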