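import Pool.Agent.H667R5.NX.NT.TFIN0D
import Pool.Agent.H667R5.NX.NU.TAUD
import Pool.Agent.H667R5.NX.NU.TBSTEPD
import Pool.Agent.H667R5.NX.NU.TDEFI
import Pool.Agent.H667R5.NX.NU.TFIND
import Pool.Agent.H667R5.NX.NU.TITD
import Pool.Agent.H667R5.NX.NU.TLIFTD
import Pool.Agent.H667R5.NX.NU.TLOCD
import Pool.Agent.H667R5.NX.NU.TLOCG
import Pool.Agent.H667R5.NX.NU.TMULTID
import Pool.Agent.H667R5.NX.NU.TORTD
import Pool.Agent.H667R5.NX.NU.TRWD
import Pool.Agent.H667R5.NX.NU.TSID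
import Pool.Agent.H667R5.NX.NU.TSMALLD
import Pool.Agent.H667R5.NX.NU.TSTEP1D
import Pool.Agent.H667R5.NX.NU.TTH1D
import Pool.Agent.H667R5.NX.NU.TTINYD
import Pool.Agent.H667R5.NX.NU.TUMDD
import Pool.Agent.H667R5.NX.NU.TX4D
import Pool.Agent.H667R5.NX.NU.TX5D
import Pool.Agent.H667R5.NX.NU.TX6D
import Pool.Agent.H667R5.NX.NU.TX7D
import Pool.Agent.H667R5.NX.NU.TX8D
import Pool.Agent.H667R5.NX.ND.TGLD
import Pool.Agent.H667R5.NX.ND.TLBD
import Pool.Agent.H667R5.NX.ND.TROWSD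
import Pool.Agent.H667R5.NX.ND.TSIRD

/-!
# Non-unital Toms-Winter: assembly of parts I and II (with a trace)
-/

set_option autoImplicit false

namespace Pool.Agent.H667R5.NT

open Pool.Agent.H327R4.Pure Pool.Agent.H270R2.NU
open Pool.Agent.H327R4.SI (CPF t_QC t_FCOM t_NF)
open Pool.Agent.H667R5.TW
open Pool.Agent.H327R4.ND (t_GLD t_LBD t_ROWSD t_SIRD)

universe u

theorem locg' : StLOCG.{u} :=
  t_LOCG bas' ct' (t_LOCD bas' (t_TH1D mt' ct' rk' mon' cake' t_SMALLD) (t_RWD diag' exa' rk')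
    ct' rk')

theorem bstepd' : StBSTEPD.{u} :=
  t_BSTEPD t_AUD (t_DEFI bas' s0' s1') cut' cpb' s0' s1' s2' s3' s4' s5' bas'

/-- part I: uniformly McDuff -/
theorem partI' (E : Type u) [CStarAlgebra E] [PartialOrder E] [StarOrderedRing E] (D : Set E)
    (hC : Core E D) (hS : SCD E D) (hn : NuclearC E) : UMD E D :=
  partI locg' bstepd' (t_MULTID cpb' bas') (t_TINYD dtr' bas' cpb')
    (t_ITD (t_STEP1D bas' cpb') cpb' bas') (t_UMDD bas' cpb') E D hC hS (data' E hn)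

theorem ortd' : StORTD.{u} := t_ORTD rib'
theorem x5d' : StX5D.{u} := t_X5D rib' (t_X4D rib' x2' ortd')
theorem x7d' : StX7D.{u} := t_X7D rib' x3' x5d' (t_X6D rib')
theorem gld' : StGLD.{u} := t_GLD x7d' t_X8D
theorem rowsd' : StROWSD.{u} := t_ROWSD rib'
theorem sird' : StSIRD.{u} := t_SIRD rib' rowsd' t_LBD

/-- completely positive approximations through matrix algebras -/
theorem cpf' (E : Type u) [CStarAlgebra E] [PartialOrder E] [StarOrderedRing E]
    (hn : NuclearC E) : CPF E := t_NF E (thm_BR E hn)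

/-- the main theorem for an ideal `D` which is seen by a trace -/
theorem nu_main (E : Type u) [CStarAlgebra E] [PartialOrder E] [StarOrderedRing E] (D : Set E)
    (hC : Core E D) (hS : SCD E D) (hn : NuclearC E) (hT : ∃ T : TS E, NV D T) : ZSD E D :=
  partII (t_LIFTD t_QC t_FCOM) (t_SID t_AUD gld' sird') t_FIND E D hC hS (cpf' E hn)
    (partI' E D hC hS hn) hT

end Pool.Agent.H667R5.NT
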