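import Pool.Agent.H667R5.NX.NU.StubsII
import Pool.Agent.H667R5.NX.NU.StubsI
import Pool.Agent.H667R5.TW.Full

/-!
# Non-unital Toms-Winter: the traceless case and the assembly of parts I and II
-/

set_option autoImplicit false

namespace Pool.Agent.H667R5.NT

open Filter Topology Pool.Agent.H327R4.Pure Pool.Agent.H270R2.NU
open Pool.Agent.H327R4.SI (RI Ex Dc IsSt CPto CPF CPAP StRIB StX1 StX2 StX3 StQC StFCOM)
open Pool.Agent.H667R5.TW (tr NuclearC HasData)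

universe u

/-- ROW0: rows excised by `g`, when no trace sees `D` -/
def StROW0 : Prop := ∀ (E : Type u) [CStarAlgebra E] [PartialOrder E] [StarOrderedRing E]
  (D : Set E), Core0 E D → SCD E D → (¬ ∃ T : TS E, NV D T) →
    ∀ (g e : E) (L : ℕ) (ε : ℝ), g ∈ D → 0 ≤ g → ‖g‖ = 1 → e ∈ D → 0 ≤ e → e ≤ 1 → 0 < ε →
    ∃ r : Fin L → E, (∀ l, r l ∈ D ∧ ‖r l‖ ≤ 2) ∧
      ∀ l l', star (r l) * g * r l' = if l = l' then cut ε e else 0

/-- the conclusion of SITD: almost central almost isometries with orthogonal ranges -/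
def SI0 (E : Type u) [CStarAlgebra E] [PartialOrder E] [StarOrderedRing E] (D : Set E) : Prop :=
  ∀ (m : ℕ) (x : Fin m → E) (R : ℕ) (ε : ℝ), (∀ j, x j ∈ D) → 0 < ε →
    ∃ (b : E) (s : Fin R → E), b ∈ D ∧ 0 ≤ b ∧ b ≤ 1 ∧ (∀ i, s i ∈ D ∧ ‖s i‖ ≤ 1) ∧
      (∀ j, ‖b * x j - x j‖ ≤ ε ∧ ‖x j * b - x j‖ ≤ ε) ∧
      (∀ i i', ‖star (s i) * s i' - if i = i' then b * b else 0‖ ≤ ε) ∧
      ∀ i j, ‖s i * x j - x j * s i‖ ≤ ε

/-- SITD -/
def StSITD : Prop := ∀ (E : Type u) [CStarAlgebra E] [PartialOrder E] [StarOrderedRing E]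
  (D : Set E), Core0 E D → SCD E D → CPF E → (¬ ∃ T : TS E, NV D T) → SI0 E D

/-- FIN0D -/
def StFIN0D : Prop := ∀ (E : Type u) [CStarAlgebra E] [PartialOrder E] [StarOrderedRing E]
  (D : Set E), Core0 E D → SI0 E D → ZSD E D

/-- `Z`-stability of `D` in all cases -/
def StNUall : Prop := ∀ (E : Type u) [CStarAlgebra E] [PartialOrder E] [StarOrderedRing E]
  (D : Set E), Core E D → SCD E D → NuclearC E → ZSD E D

end Pool.Agent.H667R5.NT
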