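import Pool.Agent.H667R5.NX.NT.Stubs

/-!
# FIN0D: `Z`-stability in the traceless case
-/

set_option autoImplicit false

namespace Pool.Agent.H667R5.NT

open Filter Topology Pool.Agent.H327R4.Pure Pool.Agent.H270R2.NU

universe u

namespace FINy

variable {A : Type u} [CStarAlgebra A]

theorem com_mul {x y a : A} {α β γ δ : ℝ} (hx : ‖x‖ ≤ α) (hy : ‖y‖ ≤ β)
    (hxa : ‖x * a - a * x‖ ≤ γ) (hya : ‖y * a - a * y‖ ≤ δ) :
    ‖x * y * a - a * (x * y)‖ ≤ α * δ + γ * β := by
  have e : x * y * a - a * (x * y) = x * (y * a - a * y) + (x * a - a * x) * y := by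
    noncomm_ring
  rw [e]
  exact (norm_add_le _ _).trans (add_le_add (norm_mul_le_of_le hx hya) (norm_mul_le_of_le hxa hy))

theorem norm_q [PartialOrder A] [StarOrderedRing A] (p : A) (h0 : 0 ≤ p) (h2 : p ≤ (2 : ℝ) • 1) :
    ‖1 - p‖ ≤ 1 := by
  rcases subsingleton_or_nontrivial A with hA | hA
  · rw [Subsingleton.elim (1 - p) 0, norm_zero]
    norm_num
  have hs : CFC.sqrt p * CFC.sqrt p = p := CFC.sqrt_mul_sqrt_self p h0
  have h3 : 0 ≤ CFC.sqrt p * ((2 : ℝ) • 1 - p) * CFC.sqrt p := by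
    have h4 : star (CFC.sqrt p) = CFC.sqrt p := (CFC.sqrt_nonneg p).isSelfAdjoint.star_eq
    have := star_left_conjugate_nonneg (sub_nonneg.2 h2) (CFC.sqrt p)
    rwa [h4] at this
  have hcom : p * CFC.sqrt p = CFC.sqrt p * p := by
    nth_rewrite 1 [← hs]
    nth_rewrite 5 [← hs]
    rw [mul_assoc]
  have h5 : CFC.sqrt p * ((2 : ℝ) • 1 - p) * CFC.sqrt p = 1 - (1 - p) * (1 - p) := by
    have e1 : CFC.sqrt p * ((2 : ℝ) • 1 - p) * CFC.sqrt p = (2 : ℝ) • (CFC.sqrt p * CFC.sqrt p) -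
        CFC.sqrt p * (p * CFC.sqrt p) := by
      simp only [mul_sub, sub_mul, mul_smul_comm, smul_mul_assoc, mul_one, mul_assoc]
    rw [e1, hcom, ← mul_assoc, hs]
    rw [two_smul]
    noncomm_ring
  rw [h5, sub_nonneg] at h3
  have hp : star (1 - p) = 1 - p := by
    rw [star_sub, star_one, (IsSelfAdjoint.of_nonneg h0).star_eq]
  have h6 : ‖star (1 - p) * (1 - p)‖ ≤ 1 := by
    refine (CStarAlgebra.norm_le_one_iff_of_nonneg _ (star_mul_self_nonneg _)).2 ?_
    rwa [hp]
  rw [CStarRing.norm_star_mul_self] at h6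
  nlinarith [norm_nonneg (1 - p)]

/-- the properly infinite case, after multiplication by `x` -/
theorem inf [PartialOrder A] [StarOrderedRing A] (b x s1 s2 : A) (M ε' : ℝ) (h0 : 0 ≤ ε')
    (hM : ‖x‖ ≤ M) (hM0 : 0 ≤ M) (hb : ‖b‖ ≤ 1) (n1 : ‖s1‖ ≤ 1) (n2 : ‖s2‖ ≤ 1)
    (hbx : ‖b * x - x‖ ≤ ε')
    (h11 : ‖star s1 * s1 - b * b‖ ≤ ε') (h22 : ‖star s2 * s2 - b * b‖ ≤ ε')
    (h12 : ‖star s1 * s2‖ ≤ ε') (h21 : ‖star s2 * s1‖ ≤ ε')
    (ha1 : ‖s1 * x - x * s1‖ ≤ ε') (ha2 : ‖s2 * x - x * s2‖ ≤ ε')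
    (hb1 : ‖star s1 * x - x * star s1‖ ≤ ε')
    (hb2 : ‖star s2 * x - x * star s2‖ ≤ ε') :
    ‖s1 * star s1 * x - x * (s1 * star s1)‖ ≤ ε' * (7 * M + 26) ∧
    ‖s1 * star s2 * x - x * (s1 * star s2)‖ ≤ ε' * (7 * M + 26) ∧
    ‖s1 * (1 - s1 * star s1 - s2 * star s2) * x - x * (s1 * (1 - s1 * star s1 - s2 * star s2))‖ ≤
      ε' * (7 * M + 26) ∧
    ‖s1 * star s1 * star (s1 * star s2) * x‖ ≤ ε' * (7 * M + 26) ∧
    ‖(s1 * star s2 * star (s1 * star s2) - s1 * star s1 * (s1 * star s1)) * x‖ ≤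
      ε' * (7 * M + 26) ∧
    ‖(s1 * star s1 * (s1 * star s1) + star (s1 * star s2) * (s1 * star s2) +
      star (s1 * (1 - s1 * star s1 - s2 * star s2)) * (s1 * (1 - s1 * star s1 - s2 * star s2)) -
      1) * x‖ ≤ ε' * (7 * M + 26) ∧
    ‖(s1 * star s1 * (s1 * (1 - s1 * star s1 - s2 * star s2)) -
      s1 * (1 - s1 * star s1 - s2 * star s2)) * x‖ ≤ ε' * (7 * M + 26) ∧
    ‖s1 * (1 - s1 * star s1 - s2 * star s2)‖ ≤ 1 := by
  have hεM : 0 ≤ ε' * M := mul_nonneg h0 hM0
  have n1' : ‖star s1‖ ≤ 1 := by rwa [norm_star]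
  have n2' : ‖star s2‖ ≤ 1 := by rwa [norm_star]
  obtain ⟨q, hq⟩ : ∃ q : A, q = 1 - s1 * star s1 - s2 * star s2 := ⟨_, rfl⟩
  have nu : ‖star s1 * s1‖ ≤ 1 := by
    have := norm_mul_le_of_le n1' n1
    linarith
  have nu' : ‖star s2 * s2‖ ≤ 1 := by
    have := norm_mul_le_of_le n2' n2
    linarith
  have nq : ‖q‖ ≤ 1 := by
    have e : q = 1 - (s1 * star s1 + s2 * star s2) := by rw [hq]; abel
    rw [e]
    apply norm_q
    · exact add_nonneg (mul_star_self_nonneg s1) (mul_star_self_nonneg s2)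
    · rw [two_smul]
      refine add_le_add ?_ ?_
      · refine (CStarAlgebra.norm_le_one_iff_of_nonneg _ (mul_star_self_nonneg _)).1 ?_
        have := norm_mul_le_of_le n1 n1'
        linarith
      · refine (CStarAlgebra.norm_le_one_iff_of_nonneg _ (mul_star_self_nonneg _)).1 ?_
        have := norm_mul_le_of_le n2 n2'
        linarith
  have sq : star q = q := by
    rw [hq]
    simp only [star_sub, star_one, star_mul, star_star]
  have hbb : ‖b * b * x - x‖ ≤ 2 * ε' := by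
    have e : b * b * x - x = b * (b * x - x) + (b * x - x) := by noncomm_ring
    rw [e]
    have := norm_mul_le_of_le hb hbx
    refine (norm_add_le _ _).trans ?_
    linarith
  have hux : ‖star s1 * s1 * x - x‖ ≤ ε' * (M + 2) := by
    have e : star s1 * s1 * x - x = (star s1 * s1 - b * b) * x + (b * b * x - x) := by
      noncomm_ring
    rw [e]
    have := norm_mul_le_of_le h11 hM
    refine (norm_add_le _ _).trans ?_
    nlinarith
  have hux' : ‖star s2 * s2 * x - x‖ ≤ ε' * (M + 2) := by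
    have e : star s2 * s2 * x - x = (star s2 * s2 - b * b) * x + (b * b * x - x) := by
      noncomm_ring
    rw [e]
    have := norm_mul_le_of_le h22 hM
    refine (norm_add_le _ _).trans ?_
    nlinarith
  have c1 := com_mul n1 n1' ha1 hb1
  have c2 := com_mul n1 n2' ha1 hb2
  have c3 := com_mul n2 n2' ha2 hb2
  have c5 : ‖q * x - x * q‖ ≤ 4 * ε' := by
    have e : q * x - x * q = -(s1 * star s1 * x - x * (s1 * star s1)) -
        (s2 * star s2 * x - x * (s2 * star s2)) := by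
      rw [hq]
      noncomm_ring
    rw [e]
    refine (norm_sub_le _ _).trans ?_
    rw [norm_neg]
    linarith
  have c6 := com_mul n1 nq ha1 c5
  -- general conjugation
  have conj : ∀ (t u : A) (γ : ℝ), ‖t‖ ≤ 1 → ‖star t * x - x * star t‖ ≤ γ → ‖u‖ ≤ 1 →
      ‖u * x - x‖ ≤ ε' * (M + 2) → 0 ≤ γ →
      ‖t * u * star t * x - t * star t * x‖ ≤ 2 * γ + ε' * (M + 2) := by
    intro t u γ nt ht nu hu hγ
    have nt' : ‖star t‖ ≤ 1 := by rwa [norm_star]
    have e : t * u * star t * x - t * star t * x = t * u * (star t * x - x * star t) +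
        t * (u * x - x) * star t - t * (star t * x - x * star t) := by noncomm_ring
    rw [e]
    have b1 := norm_mul_le_of_le (norm_mul_le_of_le nt nu) ht
    have b2 := norm_mul_le_of_le (norm_mul_le_of_le nt hu) nt'
    have b3 := norm_mul_le_of_le nt ht
    refine (norm_sub_le_of_le (norm_add_le_of_le b1 b2) b3).trans ?_
    linarith
  have k1 := conj s1 (star s1 * s1) ε' n1 hb1 nu hux h0
  have k2 := conj s2 (star s1 * s1) ε' n2 hb2 nu hux h0
  have k2' := conj s2 (star s2 * s2) ε' n2 hb2 nu' hux' h0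
  have k3 := conj q (star s1 * s1) (4 * ε') nq (by rw [sq]; exact c5) nu hux (by linarith)
  rw [sq] at k3
  rw [← hq]
  refine ⟨by nlinarith, by nlinarith, by nlinarith, ?_, ?_, ?_, ?_, ?_⟩
  · have e : s1 * star s1 * star (s1 * star s2) * x = s1 * (star s1 * s2) * star s1 * x := by
      rw [star_mul, star_star]
      noncomm_ring
    rw [e]
    have := norm_mul_le_of_le (norm_mul_le_of_le (norm_mul_le_of_le n1 h12) n1') hM
    nlinarith
  · have e : (s1 * star s2 * star (s1 * star s2) - s1 * star s1 * (s1 * star s1)) * x =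
        s1 * ((star s2 * s2 - b * b) - (star s1 * s1 - b * b)) * star s1 * x := by
      rw [star_mul, star_star]
      noncomm_ring
    rw [e]
    have a1 : ‖(star s2 * s2 - b * b) - (star s1 * s1 - b * b)‖ ≤ ε' + ε' :=
      (norm_sub_le _ _).trans (add_le_add h22 h11)
    have := norm_mul_le_of_le (norm_mul_le_of_le (norm_mul_le_of_le n1 a1) n1') hM
    nlinarith
  · have e : (s1 * star s1 * (s1 * star s1) + star (s1 * star s2) * (s1 * star s2) +
        star (s1 * q) * (s1 * q) - 1) * x =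
        (s1 * (star s1 * s1) * star s1 * x - s1 * star s1 * x) +
        (s2 * (star s1 * s1) * star s2 * x - s2 * star s2 * x) +
        (q * (star s1 * s1) * q * x - q * q * x) +
        ((s1 * (star s1 * s1) * star s1 * x - s1 * star s1 * x) +
        (s2 * (star s2 * s2) * star s2 * x - s2 * star s2 * x) +
        s1 * (star s1 * s2) * star s2 * x + s2 * (star s2 * s1) * star s1 * x) := by
      have e1 : q * q * x = x - (s1 * star s1 * x) - (s1 * star s1 * x) - s2 * star s2 * x -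
          s2 * star s2 * x + s1 * (star s1 * s1) * star s1 * x +
          s2 * (star s2 * s2) * star s2 * x +
          s1 * (star s1 * s2) * star s2 * x + s2 * (star s2 * s1) * star s1 * x := by
        rw [hq]
        noncomm_ring
      rw [e1, star_mul s1 q, sq, star_mul s1, star_star]
      noncomm_ring
    rw [e]
    have b1 := norm_mul_le_of_le (norm_mul_le_of_le (norm_mul_le_of_le n1 h12) n2') hM
    have b2 := norm_mul_le_of_le (norm_mul_le_of_le (norm_mul_le_of_le n2 h21) n1') hM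
    refine (norm_add_le_of_le (norm_add_le_of_le (norm_add_le_of_le k1 k2) k3)
      (norm_add_le_of_le (norm_add_le_of_le (norm_add_le_of_le k1 k2') b1) b2)).trans ?_
    nlinarith
  · have e : (s1 * star s1 * (s1 * q) - s1 * q) * x =
        s1 * (star s1 * s1) * (q * x - x * q) - s1 * (q * x - x * q) +
        s1 * (star s1 * s1 * x - x) * q := by
      noncomm_ring
    rw [e]
    have b1 := norm_mul_le_of_le (norm_mul_le_of_le n1 nu) c5
    have b2 := norm_mul_le_of_le n1 c5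
    have b3 := norm_mul_le_of_le (norm_mul_le_of_le n1 hux) nq
    refine (norm_add_le_of_le (norm_sub_le_of_le b1 b2) b3).trans ?_
    nlinarith
  · have := norm_mul_le_of_le n1 nq
    linarith

end FINy

open FINy in
theorem t_FIN0D : StFIN0D.{u} := by
  intro A _ _ _ D hC hSI m x ε hx hε
  obtain ⟨M, hM⟩ : ∃ M : ℝ, M = ∑ j, ‖x j‖ := ⟨_, rfl⟩
  have hM0 : 0 ≤ M := by rw [hM]; exact Finset.sum_nonneg fun j _ => norm_nonneg _
  have hxM : ∀ j, ‖x j‖ ≤ M := by
    intro j
    rw [hM]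
    exact Finset.single_le_sum (f := fun j => ‖x j‖) (fun j _ => norm_nonneg _) (Finset.mem_univ j)
  obtain ⟨ε', hε'⟩ : ∃ ε' : ℝ, ε' = ε / (7 * M + 26) := ⟨_, rfl⟩
  have hp : 0 < ε' := by rw [hε']; positivity
  have hp2 : ε' * (7 * M + 26) ≤ ε := by
    rw [hε', div_mul_cancel₀ _ (by positivity)]
  obtain ⟨b, s, hbD, hb0, hb1, hs, hbx, hss, hsx⟩ := hSI (m + m)
    (Fin.append x (fun j => star (x j))) 2 ε' (by
      intro j
      refine Fin.addCases (fun i => ?_) (fun i => ?_) j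
      · rw [Fin.append_left]; exact hx i
      · rw [Fin.append_right]; exact hC.star _ (hx i)) hp
  have g : ∀ i j, ‖s i * x j - x j * s i‖ ≤ ε' := by
    intro i j
    have h6 := hsx i (Fin.castAdd m j)
    rwa [Fin.append_left] at h6
  have g' : ∀ i j, ‖star (s i) * x j - x j * star (s i)‖ ≤ ε' := by
    intro i j
    have h6 := hsx i (Fin.natAdd m j)
    rw [Fin.append_right, ← norm_star, star_sub, star_mul, star_mul, star_star,
      ← norm_neg, neg_sub] at h6
    exact h6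
  have gb : ∀ j, ‖b * x j - x j‖ ≤ ε' := by
    intro j
    have h6 := (hbx (Fin.castAdd m j)).1
    rwa [Fin.append_left] at h6
  have k00 := hss 0 0
  have k11 := hss 1 1
  have k01 := hss 0 1
  have k10 := hss 1 0
  rw [if_pos rfl] at k00 k11
  rw [if_neg (by decide), sub_zero] at k01 k10
  have nb : ‖b‖ ≤ 1 := (CStarAlgebra.norm_le_one_iff_of_nonneg b hb0).2 hb1
  have main := fun j => inf b (x j) (s 0) (s 1) M ε' hp.le (hxM j) hM0 nb (hs 0).2 (hs 1).2
    (gb j) k00 k11 k01 k10 (g 0 j) (g 1 j) (g' 0 j) (g' 1 j)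
  have hn : ‖s 0 * (1 - s 0 * star (s 0) - s 1 * star (s 1))‖ ≤ 1 :=
    (inf b (0 : A) (s 0) (s 1) 0 ε' hp.le (by rw [norm_zero]) le_rfl nb (hs 0).2 (hs 1).2
      (by rw [mul_zero, sub_zero, norm_zero]; exact hp.le) k00 k11 k01 k10
      (by rw [mul_zero, zero_mul, sub_zero, norm_zero]; exact hp.le)
      (by rw [mul_zero, zero_mul, sub_zero, norm_zero]; exact hp.le)
      (by rw [mul_zero, zero_mul, sub_zero, norm_zero]; exact hp.le)
      (by rw [mul_zero, zero_mul, sub_zero, norm_zero]; exact hp.le)).2.2.2.2.2.2.2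
  have n0 := (hs 0).2
  have n0' : ‖star (s 0)‖ ≤ 1 := by rw [norm_star]; exact n0
  have n1' : ‖star (s 1)‖ ≤ 1 := by rw [norm_star]; exact (hs 1).2
  refine ⟨s 0 * star (s 0), s 0 * star (s 1), s 0 * (1 - s 0 * star (s 0) - s 1 * star (s 1)),
    hC.mul_right _ _ (hs 0).1, hC.mul_right _ _ (hs 0).1, hC.mul_right _ _ (hs 0).1,
    mul_star_self_nonneg _, ?_, ?_, hn, ?_⟩
  · have := norm_mul_le_of_le n0 n0'
    linarith
  · have := norm_mul_le_of_le n0 n1'
    linarith
  · intro j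
    obtain ⟨m1, m2, m3, m4, m5, m6, m7, -⟩ := main j
    exact ⟨m1.trans hp2, m2.trans hp2, m3.trans hp2, m4.trans hp2, m5.trans hp2, m6.trans hp2,
      m7.trans hp2⟩

end Pool.Agent.H667R5.NT
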